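import Pool.Agent.P.MP_dd077d_co.All

/-!
A separated finite modification of the lattice that lost at most one point lies in the lattice.
-/

namespace Pool.Agent.P.MP_dd077d_co.Own

open Pool.Agent.P.MP_dd077d_co Red

theorem mainS : S_main := by
  have hg := gl
  have hrb := rb hg
  have hp := pair data
  have h3 := r3 hrb
  have hi := inv hrb h3
  have hw := wb hi hrb
  have hm := met hg hi hrb hw
  have hnm := nm hp hi hrb hw hm
  have hs := sb hw
  have ha := atT hp hi hm hs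
  have hrow := rowT hp hrb hm hs ha
  have halt := alt hi hrb hm hs ha
  have hmid := mid hg hi hw hm one
  have hstep := step hrb h3 (r4 hg hrb) (rwb hg hrb) (idn hrb) (tc heron (peak heron) idt hg hrb)
    (recE hg hrb) hi (scal scBox scA scB scC scK)
  have hf0 := f0 hg hi hnm (orb hw) (sa hs) halt hrow hw negT hmid
  have hadv := adv hnm (orb hw) hs (sa hs) halt (low hp hi poly hrb hm hs) hrow (newW hi hw hm hs)
    hstep (ch hg) (pv pvloc) hw hrb
  exact mainT negT (w0 hg) hadv (stops hp hi hw negT)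
      (finT hg hw hm hmid hf0 (last hg hrb idt hi poly vt (half hg))
        (last0 hg hrb idt hi poly vt (half hg)) hi hrb)

theorem near_sub {Q : Set ℂ} (hQsep : Sep Q) (hQ : Near Q) : Q ⊆ Lam := by
  obtain ⟨f2, f1, hcard⟩ := hQ
  obtain ⟨R, hQR, hR, hsat⟩ := exists_sat hQsep
  have f3 : (R \ Q).Finite := by
    apply Set.Finite.subset (f1.biUnion (fun l _ => sep_finite hR l))
    rintro z ⟨hz1, hz2⟩
    obtain ⟨l, hl, hlz⟩ := exists_near z
    simp only [Set.mem_iUnion]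
    refine ⟨l, ⟨hl, fun hlQ => ?_⟩, hz1, hlz⟩
    have := hR l (hQR hlQ) z hz1 (fun h => hz2 (h ▸ hlQ))
    linarith
  have f4 : (R \ Lam).Finite := by
    apply Set.Finite.subset (f2.union f3)
    rintro z ⟨hz1, hz2⟩
    by_cases hzQ : z ∈ Q
    · exact Or.inl ⟨hzQ, hz2⟩
    · exact Or.inr ⟨hz1, hzQ⟩
  have s1 : Lam \ R ⊆ Lam \ Q := fun z hz => ⟨hz.1, fun h => hz.2 (hQR h)⟩
  have s2 : Q \ Lam ⊆ R \ Lam := fun z hz => ⟨hQR hz.1, hz.2⟩
  have hnear : Near R := by
    refine ⟨f4, f1.subset s1, ?_⟩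
    have c1 := Set.ncard_le_ncard s1 f1
    have c2 := Set.ncard_le_ncard s2 f4
    omega
  obtain ⟨T, hT⟩ := exDT R hR hsat
  have hnT : Near T.pts := by rw [hT]; exact hnear
  have hRL : R ⊆ Lam := by
    have := mainS T hnT (budget_of (area_of far) (count_of far) side T hnT)
    rwa [hT] at this
  exact hQR.trans hRL

lemma lam_add {x y : ℂ} (hx : x ∈ Lam) (hy : y ∈ Lam) : x + y ∈ Lam := by
  obtain ⟨r, j, rfl⟩ := hx
  obtain ⟨r', j', rfl⟩ := hy
  exact ⟨_, _, site_add r j r' j'⟩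

lemma lam_sub {x y : ℂ} (hx : x ∈ Lam) (hy : y ∈ Lam) : x - y ∈ Lam := by
  obtain ⟨r, j, rfl⟩ := hx
  obtain ⟨r', j', rfl⟩ := hy
  exact ⟨_, _, site_sub r j r' j'⟩

/-- moving finitely many centres of a lattice set with at most one hole gives a lattice translate -/
theorem translate_of {C : Set ℂ} (hC : C ⊆ Lam) (hH : (Lam \ C).Subsingleton) (g : ℂ → ℂ)
    (hfin : {z | z ∈ C ∧ g z ≠ z}.Finite) (hinj : Set.InjOn g C) (hsep : Sep (g '' C)) :
    ∃ v ∈ Lam, g '' C = (fun z => z + v) '' C := by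
  set M : Set ℂ := {z : ℂ | z ∈ C ∧ g z ≠ z} with hM
  set Q : Set ℂ := g '' C with hQ
  set H : Set ℂ := Lam \ C with hHdef
  set A : Set ℂ := H ∪ M with hA
  set B : Set ℂ := g '' M with hB
  have hHfin : H.Finite := hH.finite
  have hAfin : A.Finite := hHfin.union hfin
  have hBfin : B.Finite := hfin.image g
  have hdis : Disjoint H M := Set.disjoint_left.2 fun z hz hz' => hz.2 hz'.1
  have hAc : A.ncard = H.ncard + M.ncard := Set.ncard_union_eq hdis hHfin hfin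
  have hBc : B.ncard = M.ncard := (hinj.mono (fun z hz => hz.1)).ncard_image
  have hAL : A ⊆ Lam := by
    rintro z (hz | hz)
    · exact hz.1
    · exact hC hz.1
  have hBQ : B ⊆ Q := Set.image_mono (fun z hz => hz.1)
  have e1 : Lam \ Q = A \ B := by
    ext l
    constructor
    · rintro ⟨h1, h2⟩
      refine ⟨?_, fun h => h2 (hBQ h)⟩
      by_cases h0 : l ∈ C
      · exact Or.inr ⟨h0, fun hg => h2 ⟨l, h0, hg⟩⟩
      · exact Or.inl ⟨h1, h0⟩
    · rintro ⟨h1, h2⟩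
      refine ⟨hAL h1, ?_⟩
      rintro ⟨z, hz, hzl⟩
      by_cases hg : g z = z
      · have hzl' : z = l := by rw [← hzl, hg]
        subst hzl'
        rcases h1 with h1 | h1
        · exact h1.2 hz
        · exact h1.2 hg
      · exact h2 ⟨z, ⟨hz, hg⟩, hzl⟩
  have e2 : Q \ Lam = B \ A := by
    ext q
    constructor
    · rintro ⟨⟨z, hz, hzq⟩, h2⟩
      refine ⟨⟨z, ⟨hz, fun hg => h2 ?_⟩, hzq⟩, fun h => h2 (hAL h)⟩
      rw [← hzq, hg]
      exact hC hz
    · rintro ⟨h1, h2⟩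
      refine ⟨hBQ h1, fun hq => h2 ?_⟩
      by_cases h0 : q ∈ C
      · right
        refine ⟨h0, fun hg => ?_⟩
        obtain ⟨m, hm1, hm2⟩ := h1
        have : m = q := hinj hm1.1 h0 (by rw [hm2, hg])
        subst this
        exact hm1.2 hg
      · exact Or.inl ⟨hq, h0⟩
  have hcard : (Lam \ Q).ncard = (Q \ Lam).ncard + H.ncard := by
    rw [e1, e2]
    have c1 := Set.ncard_inter_add_ncard_sdiff_eq_ncard A B hAfin
    have c2 := Set.ncard_inter_add_ncard_sdiff_eq_ncard B A hBfin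
    rw [Set.inter_comm] at c2
    omega
  have f1 : (Lam \ Q).Finite := by rw [e1]; exact hAfin.sdiff
  have f2 : (Q \ Lam).Finite := by rw [e2]; exact hBfin.sdiff
  have hH1 : H.ncard ≤ 1 := (Set.ncard_le_one hHfin).2 fun a ha b hb => hH ha hb
  have hQL : Q ⊆ Lam := near_sub hsep ⟨f2, f1, by omega⟩
  have hemp : Q \ Lam = ∅ := Set.sdiff_eq_empty.2 hQL
  rw [hemp, Set.ncard_empty, zero_add] at hcard
  rcases hH.eq_empty_or_singleton with h0 | ⟨h, hh⟩
  · rw [h0, Set.ncard_empty, Set.ncard_eq_zero f1] at hcard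
    have c1 : Q = Lam := Set.Subset.antisymm hQL (Set.sdiff_eq_empty.1 hcard)
    have c2 : C = Lam := Set.Subset.antisymm hC (Set.sdiff_eq_empty.1 h0)
    exact ⟨0, zero_mem, by rw [c1, c2]; simp⟩
  · rw [hh, Set.ncard_singleton] at hcard
    obtain ⟨l, hl⟩ := Set.ncard_eq_one.1 hcard
    have hlm : l ∈ Lam \ Q := by rw [hl]; rfl
    have hhm : h ∈ H := by rw [hh]; rfl
    refine ⟨l - h, lam_sub hlm.1 hhm.1, ?_⟩
    ext q
    constructor
    · intro hq
      refine ⟨q - (l - h), ?_, by ring⟩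
      by_contra hn
      have : q - (l - h) ∈ H := ⟨lam_sub (hQL hq) (lam_sub hlm.1 hhm.1), hn⟩
      rw [hh, Set.mem_singleton_iff] at this
      have hql : q = l := by linear_combination this
      exact hlm.2 (hql ▸ hq)
    · rintro ⟨z, hz, rfl⟩
      by_contra hn
      have : z + (l - h) ∈ Lam \ Q := ⟨lam_add (hC hz) (lam_sub hlm.1 hhm.1), hn⟩
      rw [hl, Set.mem_singleton_iff] at this
      have hzh : z = h := by linear_combination this
      exact hhm.2 (hzh ▸ hz)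

lemma lam_int {x y : ℂ} (hx : x ∈ Lam) (hy : y ∈ Lam) : ∃ n : ℤ, nsq (x - y) = n := by
  obtain ⟨r, j, h⟩ := lam_sub hx hy
  refine ⟨(2 * j + r) ^ 2 + 3 * r ^ 2, ?_⟩
  rw [h, nsq, site_re, site_im, mul_pow, s3_sq]
  push_cast
  ring

lemma lam_sep : Sep Lam := by
  intro x hx y hy hne
  obtain ⟨r, j, h⟩ := lam_sub hx hy
  have h4 : (4 : ℤ) ≤ (2 * j + r) ^ 2 + 3 * r ^ 2 := by
    by_contra hlt
    push Not at hlt
    have hr1 : r ≤ 1 := by nlinarith [sq_nonneg (2 * j + r)]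
    have hr2 : -1 ≤ r := by nlinarith [sq_nonneg (2 * j + r)]
    have hj1 : j ≤ 1 := by nlinarith
    have hj2 : -1 ≤ j := by nlinarith
    have hz : r = 0 ∧ j = 0 := by
      interval_cases r <;> interval_cases j <;> simp_all
    apply hne
    rw [hz.1, hz.2] at h
    have : site 0 0 = 0 := by apply Complex.ext <;> simp [site]
    rw [this] at h
    exact sub_eq_zero.1 h
  rw [h, nsq, site_re, site_im, mul_pow, s3_sq]
  exact_mod_cast h4

/-- the centroid of the lattice triangle at the origin -/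
noncomputable def cen : ℂ := ⟨1, s3 / 3⟩

lemma cen_nsq (r j : ℤ) :
    nsq (site r j - cen) = (((2 * j + r - 1) ^ 2 + 3 * r ^ 2 - 2 * r : ℤ) : ℝ) + 1 / 3 := by
  rw [nsq_sub, site_re, site_im]
  have h := s3_sq
  simp only [cen]
  push_cast
  linear_combination ((r : ℝ) - 1 / 3) ^ 2 * h

lemma cen_far {x y : ℂ} (hx : x ∈ Lam) (hy : y ∈ Lam) (h0 : y ≠ x) (h1 : y ≠ x + site 0 1)
    (h2 : y ≠ x + site 1 0) : 4 ≤ nsq (y - (x + cen)) := by
  obtain ⟨r, j, h⟩ := lam_sub hy hx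
  have e : y - (x + cen) = site r j - cen := by rw [← h]; ring
  rw [e, cen_nsq]
  have h4 : (4 : ℤ) ≤ (2 * j + r - 1) ^ 2 + 3 * r ^ 2 - 2 * r := by
    by_contra hlt
    push Not at hlt
    have hr1 : r ≤ 1 := by nlinarith [sq_nonneg (2 * j + r - 1)]
    have hr2 : 0 ≤ r := by nlinarith [sq_nonneg (2 * j + r - 1)]
    have hj1 : j ≤ 1 := by nlinarith
    have hj2 : -1 ≤ j := by nlinarith
    have hz : (r = 0 ∧ j = 0) ∨ (r = 0 ∧ j = 1) ∨ (r = 1 ∧ j = 0) := by
      interval_cases r <;> interval_cases j <;> simp_all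
    have hs : site 0 0 = 0 := by apply Complex.ext <;> simp [site]
    rcases hz with ⟨rfl, rfl⟩ | ⟨rfl, rfl⟩ | ⟨rfl, rfl⟩
    · rw [hs] at h; exact h0 (sub_eq_zero.1 h)
    · exact h1 (by rw [← h]; ring)
    · exact h2 (by rw [← h]; ring)
  have : (4 : ℝ) ≤ (((2 * j + r - 1) ^ 2 + 3 * r ^ 2 - 2 * r : ℤ) : ℝ) := by exact_mod_cast h4
  linarith

lemma cen_not_int {x y : ℂ} (hx : x ∈ Lam) (hy : y ∈ Lam) (n : ℤ) :
    nsq (y - (x + cen)) ≠ n := by
  obtain ⟨r, j, h⟩ := lam_sub hy hx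
  have e : y - (x + cen) = site r j - cen := by rw [← h]; ring
  rw [e, cen_nsq]
  intro hn
  have : ((3 * ((2 * j + r - 1) ^ 2 + 3 * r ^ 2 - 2 * r) + 1 : ℤ) : ℝ) = ((3 * n : ℤ) : ℝ) := by
    push_cast at hn ⊢
    linarith
  have h3 : 3 * ((2 * j + r - 1) ^ 2 + 3 * r ^ 2 - 2 * r) + 1 = 3 * n := by exact_mod_cast this
  omega

/-- with two holes one centre can be moved off the lattice -/
theorem off_lattice {C : Set ℂ} (hC : C ⊆ Lam) (hH : (Lam \ C).Nontrivial) {x : ℂ} (hx : x ∈ C) :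
    ∃ g : ℂ → ℂ, {z | z ∈ C ∧ g z ≠ z}.Finite ∧ Set.InjOn g C ∧ Sep (g '' C) ∧
      g x = x + cen ∧ ∀ z ∈ C, z ≠ x → g z ∈ Lam := by
  classical
  obtain ⟨h1, hh1, h2, hh2, h12⟩ := hH
  set b := x + site 0 1 with hb
  set c := x + site 1 0 with hc
  have hbc : b ≠ c := by
    intro h
    have := site_inj (add_left_cancel h)
    omega
  obtain ⟨u, hu, v, hv, hub, hvc, huv⟩ : ∃ u ∈ Lam \ C, ∃ v ∈ Lam \ C, (b ∈ C → u ≠ c) ∧
      (c ∈ C → v ≠ b) ∧ (b ∈ C → c ∈ C → u ≠ v) := by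
    by_cases hbC : b ∈ C <;> by_cases hcC : c ∈ C
    · exact ⟨h1, hh1, h2, hh2, fun _ h => hh1.2 (h ▸ hcC), fun _ h => hh2.2 (h ▸ hbC),
        fun _ _ => h12⟩
    · by_cases e : h1 = c
      · exact ⟨h2, hh2, h2, hh2, fun _ h => h12 (e.trans h.symm), fun h => absurd h hcC,
          fun _ h => absurd h hcC⟩
      · exact ⟨h1, hh1, h1, hh1, fun _ => e, fun h => absurd h hcC, fun _ h => absurd h hcC⟩
    · by_cases e : h1 = b
      · exact ⟨h2, hh2, h2, hh2, fun h => absurd h hbC, fun _ h => h12 (e.trans h.symm),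
          fun h => absurd h hbC⟩
      · exact ⟨h1, hh1, h1, hh1, fun h => absurd h hbC, fun _ => e, fun h => absurd h hbC⟩
    · exact ⟨h1, hh1, h1, hh1, fun h => absurd h hbC, fun h => absurd h hcC,
        fun h => absurd h hbC⟩
  set g : ℂ → ℂ := fun z => if z = x then x + cen else if z = b then u else if z = c then v else z
    with hg
  have gx : g x = x + cen := by simp [hg]
  have key : ∀ z ∈ C, z ≠ x → g z ∈ Lam ∧ g z ≠ x ∧ g z ≠ b ∧ g z ≠ c ∧
      ((z = b ∧ g z = u) ∨ (z = c ∧ g z = v) ∨ (z ≠ b ∧ z ≠ c ∧ g z = z)) := by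
    intro z hz hzx
    by_cases e1 : z = b
    · have : g z = u := by simp [hg, e1, (e1 ▸ hzx : b ≠ x)]
      rw [this]
      exact ⟨hu.1, fun h => hu.2 (h ▸ hx), fun h => hu.2 (h ▸ e1 ▸ hz), hub (e1 ▸ hz),
        Or.inl ⟨e1, rfl⟩⟩
    · by_cases e2 : z = c
      · have : g z = v := by simp [hg, e2, (e2 ▸ hzx : c ≠ x), hbc.symm]
        rw [this]
        exact ⟨hv.1, fun h => hv.2 (h ▸ hx), hvc (e2 ▸ hz), fun h => hv.2 (h ▸ e2 ▸ hz),
          Or.inr (Or.inl ⟨e2, rfl⟩)⟩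
      · have : g z = z := by simp [hg, hzx, e1, e2]
        rw [this]
        exact ⟨hC hz, hzx, e1, e2, Or.inr (Or.inr ⟨e1, e2, rfl⟩)⟩
  have far4 : ∀ z ∈ C, z ≠ x → 4 ≤ nsq (g z - g x) := fun z hz hzx => by
    obtain ⟨k1, k2, k3, k4, -⟩ := key z hz hzx
    rw [gx]
    exact cen_far (hC hx) k1 k2 k3 k4
  refine ⟨g, ?_, ?_, ?_, gx, fun z hz hzx => (key z hz hzx).1⟩
  · apply Set.Finite.subset (Set.toFinite ({x, b, c} : Set ℂ))
    rintro z ⟨hz, hgz⟩
    by_cases hzx : z = x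
    · exact Or.inl hzx
    · rcases (key z hz hzx).2.2.2.2 with k | k | k
      · exact Or.inr (Or.inl k.1)
      · exact Or.inr (Or.inr k.1)
      · exact absurd k.2.2 hgz
  · intro z hz w hw hzw
    by_cases hzx : z = x <;> by_cases hwx : w = x
    · rw [hzx, hwx]
    · have := far4 w hw hwx
      rw [← hzx, hzw] at this
      simp [nsq] at this
      linarith
    · have := far4 z hz hzx
      rw [← hwx, hzw] at this
      simp [nsq] at this
      linarith
    · rcases (key z hz hzx).2.2.2.2 with k | k | k <;>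
        rcases (key w hw hwx).2.2.2.2 with k' | k' | k'
      · rw [k.1, k'.1]
      · exact absurd (k.2.symm.trans (hzw.trans k'.2)) (huv (k.1 ▸ hz) (k'.1 ▸ hw))
      · exact absurd (k.2.symm.trans (hzw.trans k'.2.2) ▸ hw) hu.2
      · exact absurd (k'.2.symm.trans (hzw.symm.trans k.2)) (huv (k'.1 ▸ hw) (k.1 ▸ hz))
      · rw [k.1, k'.1]
      · exact absurd (k.2.symm.trans (hzw.trans k'.2.2) ▸ hw) hv.2
      · exact absurd (k'.2.symm.trans (hzw.symm.trans k.2.2) ▸ hz) hu.2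
      · exact absurd (k'.2.symm.trans (hzw.symm.trans k.2.2) ▸ hz) hv.2
      · exact k.2.2.symm.trans (hzw.trans k'.2.2)
  · rintro _ ⟨z, hz, rfl⟩ _ ⟨w, hw, rfl⟩ hne
    by_cases hzx : z = x <;> by_cases hwx : w = x
    · exact absurd (by rw [hzx, hwx]) hne
    · rw [nsq_comm, hzx]; exact far4 w hw hwx
    · rw [hwx]; exact far4 z hz hzx
    · exact lam_sep _ (key z hz hzx).1 _ (key w hw hwx).1 hne

end Pool.Agent.P.MP_dd077d_co.Own
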