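import Mathlib

/-!
Packings of disks in the plane, rearrangements and solidity, as in the problem text.
The plane is the set of complex numbers with its Euclidean distance.
-/

namespace Pool.Agent.P.MP_dd077d_co.Own

/-- the triangular lattice with spacing 2 -/
def lattice : Set ℂ :=
  {z | ∃ a b : ℤ, z = 2 * (a : ℂ) + 2 * (b : ℂ) * Complex.exp ((Real.pi : ℂ) / 3 * Complex.I)}

/-- the closed unit disks centred at the lattice points -/
def triPacking : Set (Set ℂ) := {D | ∃ z ∈ lattice, D = Metric.closedBall z 1}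

/-- a set of closed disks with pairwise disjoint interiors -/
def IsPacking (Q : Set (Set ℂ)) : Prop :=
  (∀ D ∈ Q, ∃ (c : ℂ) (r : ℝ), 0 < r ∧ D = Metric.closedBall c r) ∧
    Q.Pairwise (fun D E => Disjoint (interior D) (interior E))

/-- `Q` is a packing obtained from `P` by moving finitely many disks by isometries of the plane;
no moved disk lands on another disk -/
def IsRearrangement (P Q : Set (Set ℂ)) : Prop :=
  ∃ (F : Set (Set ℂ)) (g : Set ℂ → (ℂ ≃ᵢ ℂ)), F.Finite ∧ F ⊆ P ∧
    Set.InjOn (fun D => g D '' D) F ∧ (∀ D ∈ F, g D '' D ∉ P \ F) ∧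
    Q = (P \ F) ∪ (fun D => g D '' D) '' F ∧ IsPacking Q

/-- an isometry of the plane maps the disks of `P` onto the disks of `Q` -/
def Congruent (P Q : Set (Set ℂ)) : Prop := ∃ e : ℂ ≃ᵢ ℂ, (fun D => e '' D) '' P = Q

/-- every rearrangement is congruent to the packing -/
def Solid (P : Set (Set ℂ)) : Prop := ∀ Q, IsRearrangement P Q → Congruent P Q

end Pool.Agent.P.MP_dd077d_co.Own
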