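import Pool.Agent.P.MP_dd077d_co.Own.Defs
import Pool.Agent.P.MP_dd077d_co.Own.Core

/-!
From centres to disks: the solid subpackings of the triangular packing.
-/

namespace Pool.Agent.P.MP_dd077d_co.Own

open Pool.Agent.P.MP_dd077d_co Red

/-- the closed unit disk with centre `z` -/
def disk (z : ℂ) : Set ℂ := Metric.closedBall z 1

lemma nsq_dist (x y : ℂ) : nsq (x - y) = dist x y ^ 2 := by
  rw [Complex.dist_eq, Complex.sq_norm, Complex.normSq_apply, nsq]
  ring

lemma disk_inj : Function.Injective disk := by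
  intro c c' h
  have h1 : c + 1 ∈ disk c' := by rw [← h]; simp [disk]
  have h2 : c - 1 ∈ disk c' := by rw [← h]; simp [disk]
  simp only [disk, Metric.mem_closedBall] at h1 h2
  have a1 : nsq (c + 1 - c') ≤ 1 := by rw [nsq_dist]; nlinarith [dist_nonneg (x := c + 1) (y := c')]
  have a2 : nsq (c - 1 - c') ≤ 1 := by rw [nsq_dist]; nlinarith [dist_nonneg (x := c - 1) (y := c')]
  rw [nsq_sub] at a1 a2
  simp only [Complex.add_re, Complex.add_im, Complex.sub_re, Complex.sub_im, Complex.one_re,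
    Complex.one_im] at a1 a2
  have b1 : (c.re - c'.re) ^ 2 = 0 := by nlinarith [sq_nonneg (c.re - c'.re), sq_nonneg (c.im - c'.im)]
  have b2 : (c.im - c'.im) ^ 2 = 0 := by nlinarith [sq_nonneg (c.re - c'.re), sq_nonneg (c.im - c'.im)]
  apply Complex.ext
  · exact sub_eq_zero.1 (pow_eq_zero_iff (by norm_num) |>.1 b1)
  · exact sub_eq_zero.1 (pow_eq_zero_iff (by norm_num) |>.1 b2)

lemma lattice_eq : lattice = Lam := by
  have e : Complex.exp ((Real.pi : ℂ) / 3 * Complex.I) =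
      (1 / 2 : ℂ) + ((Real.sqrt 3 / 2 : ℝ) : ℂ) * Complex.I := by
    have : (Real.pi : ℂ) / 3 = ((Real.pi / 3 : ℝ) : ℂ) := by push_cast; ring
    rw [this, Complex.exp_mul_I, ← Complex.ofReal_cos, ← Complex.ofReal_sin,
      Real.cos_pi_div_three, Real.sin_pi_div_three]
    push_cast; ring
  ext z
  simp only [lattice, Lam, Set.mem_ofPred_eq, e]
  constructor
  · rintro ⟨a, b, h⟩
    exact ⟨b, a, by rw [h, ← site_eq]; ring⟩
  · rintro ⟨r, j, h⟩
    exact ⟨j, r, by rw [h, ← site_eq]; ring⟩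

lemma tri_eq : triPacking = disk '' Lam := by
  ext D
  simp only [triPacking, lattice_eq, Set.mem_ofPred_eq, Set.mem_image, disk]
  constructor
  · rintro ⟨z, hz, h⟩
    exact ⟨z, hz, h.symm⟩
  · rintro ⟨z, hz, h⟩
    exact ⟨z, hz, h.symm⟩

lemma iso_disk (e : ℂ ≃ᵢ ℂ) (z : ℂ) : e '' disk z = disk (e z) := e.image_closedBall z 1

lemma iso_image (e : ℂ ≃ᵢ ℂ) (C : Set ℂ) :
    (fun D => e '' D) '' (disk '' C) = disk '' (e '' C) := by
  simp only [Set.image_image, iso_disk]

lemma disj_iff (x y : ℂ) :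
    Disjoint (interior (disk x)) (interior (disk y)) ↔ 4 ≤ nsq (x - y) := by
  unfold disk
  rw [interior_closedBall _ one_ne_zero, interior_closedBall _ one_ne_zero,
    disjoint_ball_ball_iff one_pos one_pos, nsq_dist]
  have := dist_nonneg (x := x) (y := y)
  constructor
  · intro h; nlinarith
  · intro h; nlinarith

lemma packing_iff (C : Set ℂ) : IsPacking (disk '' C) ↔ Sep C := by
  constructor
  · intro h x hx y hy hne
    exact (disj_iff x y).1 (h.2 ⟨x, hx, rfl⟩ ⟨y, hy, rfl⟩ fun e => hne (disk_inj e))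
  · intro h
    refine ⟨?_, ?_⟩
    · rintro _ ⟨z, -, rfl⟩
      exact ⟨z, 1, one_pos, rfl⟩
    · rintro _ ⟨x, hx, rfl⟩ _ ⟨y, hy, rfl⟩ hne
      exact (disj_iff x y).2 (h x hx y hy fun e => hne (by rw [e]))

lemma rearr_iff (C : Set ℂ) (Q : Set (Set ℂ)) : IsRearrangement (disk '' C) Q ↔
    ∃ g : ℂ → ℂ, {z | z ∈ C ∧ g z ≠ z}.Finite ∧ Set.InjOn g C ∧ Sep (g '' C) ∧
      Q = disk '' (g '' C) := by
  classical
  constructor
  · rintro ⟨F, G, hF, hFP, hinj, hnot, hQ, hpack⟩
    set g : ℂ → ℂ := fun z => if disk z ∈ F then G (disk z) z else z with hg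
    have g1 : ∀ z, disk z ∈ F → disk (g z) = G (disk z) '' disk z := fun z h => by
      simp only [hg, if_pos h, iso_disk]
    have g2 : ∀ z, disk z ∉ F → g z = z := fun z h => by simp only [hg, if_neg h]
    have hQ' : Q = disk '' (g '' C) := by
      rw [hQ]
      ext D
      constructor
      · rintro (⟨⟨z, hz, rfl⟩, h⟩ | ⟨E, hE, rfl⟩)
        · exact ⟨g z, ⟨z, hz, rfl⟩, by rw [g2 z h]⟩
        · obtain ⟨z, hz, rfl⟩ := hFP hE
          exact ⟨g z, ⟨z, hz, rfl⟩, g1 z hE⟩
      · rintro ⟨_, ⟨z, hz, rfl⟩, rfl⟩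
        by_cases h : disk z ∈ F
        · exact Or.inr ⟨disk z, h, (g1 z h).symm⟩
        · exact Or.inl ⟨⟨z, hz, by rw [g2 z h]⟩, by rw [g2 z h]; exact h⟩
    refine ⟨g, ?_, ?_, (packing_iff _).1 (hQ' ▸ hpack), hQ'⟩
    · apply Set.Finite.subset (hF.preimage disk_inj.injOn)
      rintro z ⟨-, h⟩
      by_contra h'
      exact h (g2 z h')
    · intro z hz w hw hzw
      by_cases h1 : disk z ∈ F <;> by_cases h2 : disk w ∈ F
      · apply disk_inj
        apply hinj h1 h2
        simp only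
        rw [← g1 z h1, ← g1 w h2, hzw]
      · exact absurd ⟨⟨w, hw, by rw [← g1 z h1, hzw, g2 w h2]⟩, by
          rw [← g1 z h1, hzw, g2 w h2]; exact h2⟩ (hnot _ h1)
      · exact absurd ⟨⟨z, hz, by rw [← g1 w h2, ← hzw, g2 z h1]⟩, by
          rw [← g1 w h2, ← hzw, g2 z h1]; exact h1⟩ (hnot _ h2)
      · rw [← g2 z h1, hzw, g2 w h2]
  · rintro ⟨g, hfin, hinj, hsep, rfl⟩
    have hl : ∀ z, Function.invFun disk (disk z) = z := Function.leftInverse_invFun disk_inj
    set G : Set ℂ → (ℂ ≃ᵢ ℂ) := fun D =>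
      IsometryEquiv.addRight (g (Function.invFun disk D) - Function.invFun disk D) with hG
    have g1 : ∀ z, G (disk z) '' disk z = disk (g z) := fun z => by
      rw [iso_disk]
      simp [hG, hl]
    refine ⟨disk '' {z | z ∈ C ∧ g z ≠ z}, G, hfin.image _, Set.image_mono fun z hz => hz.1,
      ?_, ?_, ?_, (packing_iff _).2 hsep⟩
    · rintro _ ⟨z, hz, rfl⟩ _ ⟨w, hw, rfl⟩ h
      simp only [g1] at h
      rw [hinj hz.1 hw.1 (disk_inj h)]
    · rintro _ ⟨z, hz, rfl⟩ ⟨⟨w, hw, h⟩, h'⟩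
      rw [g1] at h h'
      have e : w = g z := disk_inj h
      have e2 : g w = w := by
        by_contra hn
        exact h' ⟨w, ⟨hw, hn⟩, h⟩
      have e3 : w = z := hinj hw hz.1 (e2.trans e)
      exact hz.2 (by rw [← e, e3])
    · ext D
      constructor
      · rintro ⟨_, ⟨z, hz, rfl⟩, rfl⟩
        by_cases h : g z = z
        · refine Or.inl ⟨⟨z, hz, by rw [h]⟩, ?_⟩
          rintro ⟨w, hw, e⟩
          have : w = z := (disk_inj e).trans h
          exact hw.2 (this ▸ h)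
        · exact Or.inr ⟨disk z, ⟨z, ⟨hz, h⟩, rfl⟩, g1 z⟩
      · rintro (⟨⟨z, hz, rfl⟩, h⟩ | ⟨_, ⟨z, hz, rfl⟩, rfl⟩)
        · have e : g z = z := by
            by_contra hn
            exact h ⟨z, ⟨hz, hn⟩, rfl⟩
          exact ⟨g z, ⟨z, hz, rfl⟩, by rw [e]⟩
        · exact ⟨g z, ⟨z, hz.1, rfl⟩, (g1 z).symm⟩

/-- every lattice translate is reached by moving at most one centre -/
lemma exists_move {C : Set ℂ} (hC : C ⊆ Lam) (hH : (Lam \ C).Subsingleton) {v : ℂ}
    (hv : v ∈ Lam) : ∃ g : ℂ → ℂ, {z | z ∈ C ∧ g z ≠ z}.Finite ∧ Set.InjOn g C ∧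
      g '' C = (fun z => z + v) '' C := by
  classical
  rcases hH.eq_empty_or_singleton with h0 | ⟨h, hh⟩
  · have c2 : C = Lam := Set.Subset.antisymm hC (Set.sdiff_eq_empty.1 h0)
    refine ⟨id, by simp, Set.injOn_id _, ?_⟩
    rw [c2, Set.image_id]
    ext q
    constructor
    · intro hq
      exact ⟨q - v, lam_sub hq hv, by ring⟩
    · rintro ⟨z, hz, rfl⟩
      exact lam_add hz hv
  · have hm : ∀ z, z ∈ C ↔ z ∈ Lam ∧ z ≠ h := fun z => by
      have : z ∈ Lam \ C ↔ z = h := by rw [hh]; rfl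
      constructor
      · intro hz
        exact ⟨hC hz, fun e => (this.2 e).2 hz⟩
      · rintro ⟨h1, h2⟩
        by_contra hn
        exact h2 (this.1 ⟨h1, hn⟩)
    have hL : h ∈ Lam := (show h ∈ Lam \ C by rw [hh]; rfl).1
    refine ⟨fun z => if z = h + v then h else z, ?_, ?_, ?_⟩
    · apply Set.Finite.subset (Set.finite_singleton (h + v))
      rintro z ⟨-, hz⟩
      by_contra hn
      exact hz (if_neg hn)
    · intro z hz w hw e
      by_cases h1 : z = h + v <;> by_cases h2 : w = h + v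
      · rw [h1, h2]
      · simp only [if_pos h1, if_neg h2] at e
        exact absurd e.symm ((hm w).1 hw).2
      · simp only [if_neg h1, if_pos h2] at e
        exact absurd e ((hm z).1 hz).2
      · simpa only [if_neg h1, if_neg h2] using e
    · ext q
      constructor
      · rintro ⟨z, hz, rfl⟩
        by_cases h1 : z = h + v
        · simp only [if_pos h1]
          refine ⟨h - v, (hm _).2 ⟨lam_sub hL hv, fun e => ((hm z).1 hz).2 ?_⟩, by ring⟩
          rw [h1]
          linear_combination -e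
        · simp only [if_neg h1]
          refine ⟨z - v, (hm _).2 ⟨lam_sub (hC hz) hv, fun e => h1 ?_⟩, by ring⟩
          linear_combination e
      · rintro ⟨z, hz, rfl⟩
        have hz' := (hm z).1 hz
        by_cases h1 : z + v = h
        · refine ⟨h + v, (hm _).2 ⟨lam_add hL hv, fun e => hz'.2 ?_⟩, by simp [h1]⟩
          linear_combination h1 - e
        · refine ⟨z + v, (hm _).2 ⟨lam_add hz'.1 hv, h1⟩, ?_⟩
          exact if_neg fun e => hz'.2 (add_right_cancel e)

theorem solid_tfae (P : Set (Set ℂ)) (hP : P ⊆ triPacking) (h2 : P.Nontrivial) :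
    List.TFAE [Solid P, (triPacking \ P).Subsingleton,
      ∀ Q, IsRearrangement P Q ↔ ∃ v ∈ lattice, Q = (fun D => (fun z => z + v) '' D) '' P] := by
  rw [tri_eq] at hP ⊢
  rw [lattice_eq]
  obtain ⟨C, hC, rfl⟩ := Set.subset_image_iff.1 hP
  rw [← Set.image_sdiff disk_inj]
  have tr : ∀ v : ℂ, (fun D => (fun z => z + v) '' D) '' (disk '' C) =
      disk '' ((fun z => z + v) '' C) := fun v => iso_image (IsometryEquiv.addRight v) C
  tfae_have 1 → 2 := by
    intro hs
    by_contra hn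
    have hH : (Lam \ C).Nontrivial := Set.nontrivial_of_image _ _ (Set.not_subsingleton_iff.1 hn)
    obtain ⟨x, hx, y, hy, hxy⟩ := Set.nontrivial_of_image _ _ h2
    obtain ⟨g, a1, a2, a3, a4, a5⟩ := off_lattice hC hH hx
    obtain ⟨e, he⟩ := hs _ ((rearr_iff C _).2 ⟨g, a1, a2, a3, rfl⟩)
    rw [iso_image] at he
    have he' : e '' C = g '' C := Set.image_injective.2 disk_inj he
    obtain ⟨x', hx', ex⟩ : g x ∈ e '' C := he' ▸ ⟨x, hx, rfl⟩
    obtain ⟨y', hy', ey⟩ : g y ∈ e '' C := he' ▸ ⟨y, hy, rfl⟩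
    obtain ⟨n, hn⟩ := lam_int (hC hy') (hC hx')
    apply cen_not_int (hC hx) (a5 y hy hxy.symm) n
    rw [← a4, ← ex, ← ey, nsq_dist, e.dist_eq, ← nsq_dist, hn]
  tfae_have 2 → 3 := by
    intro hs Q
    have hH : (Lam \ C).Subsingleton := Set.subsingleton_of_image disk_inj _ hs
    rw [rearr_iff]
    constructor
    · rintro ⟨g, a1, a2, a3, rfl⟩
      obtain ⟨v, hv, e⟩ := translate_of hC hH g a1 a2 a3
      exact ⟨v, hv, by rw [tr, e]⟩
    · rintro ⟨v, hv, rfl⟩
      obtain ⟨g, a1, a2, e⟩ := exists_move hC hH hv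
      refine ⟨g, a1, a2, ?_, by rw [tr, e]⟩
      rw [e]
      rintro _ ⟨x, hx, rfl⟩ _ ⟨y, hy, rfl⟩ hne
      exact lam_sep _ (lam_add (hC hx) hv) _ (lam_add (hC hy) hv) hne
  tfae_have 3 → 1 := by
    intro h Q hQ
    obtain ⟨v, -, rfl⟩ := (h Q).1 hQ
    exact ⟨IsometryEquiv.addRight v, rfl⟩
  tfae_finish

/-- the question as posed: the triangular packing with one disk deleted is solid -/
theorem solid_minus_one {D : Set ℂ} (hD : D ∈ triPacking) : Solid (triPacking \ {D}) := by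
  have hn : (triPacking \ {D}).Nontrivial := by
    have hinf : triPacking.Infinite := by
      rw [tri_eq]
      refine Set.Infinite.image disk_inj.injOn ?_
      refine Set.infinite_of_injective_forall_mem (f := fun j : ℤ => site 0 j)
        (fun a b h => (site_inj h).2) fun j => ⟨0, j, rfl⟩
    exact (hinf.sdiff (Set.finite_singleton D)).nontrivial
  refine ((solid_tfae _ Set.sdiff_subset hn).out 1 0).1 ?_
  rw [Set.sdiff_sdiff_cancel_left (Set.singleton_subset_iff.2 hD)]
  exact Set.subsingleton_singleton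

end Pool.Agent.P.MP_dd077d_co.Own
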